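import Pool.Agent.H64.AK.Defs

/-! # The countable chain condition for the conditions of a small tree -/

set_option autoImplicit false

open Cardinal

namespace Pool.Agent.H64.AK

open Pool.Agent.H20.SL Pool.Agent.H60.CP

/-- at most one immediate successor of `c` is below `t` -/
theorem suc_unique {W : Type} [PartialOrder W] (h : IsTree W) {c : Option W} {u v t : W}
    (hu : Suc c u) (hv : Suc c v) (hut : u ≤ t) (hvt : v ≤ t) : u = v := by
  have key : ∀ {u v : W}, Suc c u → Suc c v → u ≤ v → u = v := by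
    intro u v hu hv huv
    rcases c with _ | c
    · exact le_antisymm huv (hv huv)
    · have h1 : c ⋖ u := hu
      have h2 : c ⋖ v := hv
      by_contra hne
      exact h2.2 h1.1 (lt_of_le_of_ne huv hne)
  rcases h.comp _ _ _ hut hvt with h1 | h1
  · exact key hu hv h1
  · exact (key hv hu h1).symm

theorem suc_fin {W : Type} [PartialOrder W] (h : IsTree W) (c : Option W) (a : Finset W) :
    {u | Suc c u ∧ ∃ t ∈ a, u ≤ t}.Finite := by
  have : {u | Suc c u ∧ ∃ t ∈ a, u ≤ t} ⊆ ⋃ t ∈ (a : Set W), {u | Suc c u ∧ u ≤ t} := by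
    rintro u ⟨hu, t, ht, hut⟩
    exact Set.mem_biUnion (show t ∈ (a : Set W) from ht) ⟨hu, hut⟩
  refine Set.Finite.subset (Set.Finite.biUnion a.finite_toSet ?_) this
  intro t _
  refine Set.Subsingleton.finite ?_
  rintro u ⟨hu, hut⟩ v ⟨hv, hvt⟩
  exact suc_unique h hu hv hut hvt

theorem toList_some {α : Type} {s : Finset α} {t : α} {j : ℕ} (h : s.toList[j]? = some t) :
    t ∈ s := by
  rw [← Finset.mem_toList]
  exact List.mem_of_getElem? h

theorem exists_toList {α : Type} {s : Finset α} {t : α} (h : t ∈ s) :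
    ∃ j, j < s.card ∧ s.toList[j]? = some t := by
  rw [← Finset.mem_toList] at h
  obtain ⟨j, hj⟩ := List.mem_iff_getElem?.1 h
  refine ⟨j, ?_, hj⟩
  obtain ⟨hj', _⟩ := List.getElem?_eq_some_iff.1 hj
  simpa using hj'

theorem ccc : T_CCC := by
  classical
  intro W _ hW A hA
  by_contra hunc
  -- cardinalities
  obtain ⟨⟨m, k⟩, hA1⟩ := pig hunc (fun p : Cnd W => (p.a.card, p.d.card))
  set A1 : Set (Cnd W) := {p | p ∈ A ∧ (p.a.card, p.d.card) = (m, k)} with hA1def
  -- delta systems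
  obtain ⟨B, hBA, hB, hBd⟩ := delta (Finset.range m) hA1
    (fun (p : Cnd W) (j : ℕ) => p.a.toList[j]?)
  obtain ⟨D, hDB, hD, hDd⟩ := delta (Finset.range k) hB
    (fun (p : Cnd W) (j : ℕ) => p.d.toList[j]?)
  have hcard : ∀ p ∈ D, p.a.card = m ∧ p.d.card = k := by
    intro p hp
    have := (hBA (hDB hp)).2
    simpa using this
  have hDA : D ⊆ A := fun p hp => (hBA (hDB hp)).1
  -- the finite set of constant values
  set K : Set (Option W) := {c | ∃ i, i < k ∧ ∀ p ∈ D, p.d.toList[i]? = some c} with hK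
  have hDne : D.Nonempty := by
    rw [Set.nonempty_iff_ne_empty]
    intro h0
    rw [h0] at hD
    exact hD Set.countable_empty
  obtain ⟨p₀, hp₀⟩ := hDne
  have hKfin : K.Finite := by
    refine p₀.d.finite_toSet.subset ?_
    rintro c ⟨i, _, hi⟩
    exact toList_some (hi p₀ hp₀)
  set U : Set W := {u | ∃ c ∈ K, Suc c u} with hU
  have hUc : U.Countable := by
    have : U ⊆ ⋃ c ∈ K, {u | Suc c u} := by
      rintro u ⟨c, hc, hu⟩
      exact Set.mem_biUnion hc hu
    exact (hKfin.countable.biUnion (fun c _ => hW.suc c)).mono this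
  have hfin : ∀ p : Cnd W, {u : U | ∃ t ∈ p.a, u.1 ≤ t}.Finite := by
    intro p
    refine Set.Finite.of_finite_image (f := Subtype.val) ?_ Subtype.val_injective.injOn
    have : (Subtype.val '' {u : U | ∃ t ∈ p.a, u.1 ≤ t}) ⊆
        ⋃ c ∈ K, {u | Suc c u ∧ ∃ t ∈ p.a, u ≤ t} := by
      rintro _ ⟨⟨u, c, hc, hu⟩, ht, rfl⟩
      exact Set.mem_biUnion hc ⟨hu, ht⟩
    exact Set.Finite.subset (hKfin.biUnion (fun c _ => suc_fin hW.tree c p.a)) this
  have : Countable U := hUc.to_subtype
  obtain ⟨s, hE⟩ := pig hD (fun p : Cnd W => (hfin p).toFinset)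
  -- remove the conditions with a nonconstant coordinate equal to none
  set Z : Set (Cnd W) := ⋃ i ∈ {i : ℕ | i < k ∧ ∀ v, {x | x ∈ D ∧ x.d.toList[i]? = v}.Countable},
    {x | x ∈ D ∧ x.d.toList[i]? = some none} with hZ
  have hZc : Z.Countable := by
    refine Set.Countable.biUnion (Set.to_countable _) ?_
    intro i hi
    exact hi.2 _
  set G : Set (Cnd W) := {p | p ∈ D ∧ (hfin p).toFinset = s} \ Z with hG
  have hGu : ¬ G.Countable := by
    intro h
    apply hE
    refine (h.union hZc).mono ?_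
    intro p hp
    by_cases hpZ : p ∈ Z
    · exact Or.inr hpZ
    · exact Or.inl ⟨hp, hpZ⟩
  have hGD : G ⊆ D := fun p hp => hp.1.1
  -- the basic relation
  let R' : ℕ → ℕ → Cnd W → Cnd W → Prop := fun i j p q =>
    (∀ v, {x | x ∈ D ∧ x.d.toList[i]? = v}.Countable) ∧
      ∃ c t, p.d.toList[i]? = some (some c) ∧ q.a.toList[j]? = some t ∧ c < t
  let R : Cnd W → Cnd W → Prop := fun p q => ∃ i, i < k ∧ ∃ j, j < m ∧ R' i j p q
  -- half of the compatibility
  have half : ∀ p ∈ G, ∀ q ∈ G, ¬ R p q → ∀ c ∈ p.d, ∀ t ∈ q.a, ∀ u, Suc c u → u ≤ t →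
      ∃ t' ∈ p.a, u ≤ t' := by
    intro p hp q hq hR c hc t ht u hu hut
    obtain ⟨i, hi, hic⟩ := exists_toList hc
    rw [(hcard p (hGD hp)).2] at hi
    rcases hDd i (Finset.mem_range.2 hi) with ⟨v, hv⟩ | hv
    · have hvc : v = some c := (hv p (hGD hp)).symm.trans hic
      have hcK : c ∈ K := ⟨i, hi, fun x hx => (hv x hx).trans hvc⟩
      have hu1 : (⟨u, c, hcK, hu⟩ : U) ∈ (hfin q).toFinset := by
        rw [Set.Finite.mem_toFinset]
        exact ⟨t, ht, hut⟩
      rw [hq.1.2, ← hp.1.2, Set.Finite.mem_toFinset] at hu1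
      exact hu1
    · rcases c with _ | c
      · exfalso
        apply hp.2
        exact Set.mem_biUnion (show i ∈ {i : ℕ | i < k ∧
          ∀ v, {x | x ∈ D ∧ x.d.toList[i]? = v}.Countable} from ⟨hi, hv⟩) ⟨hGD hp, hic⟩
      · have hct : c < t := lt_of_lt_of_le (show c ⋖ u from hu).1 hut
        obtain ⟨j, hj, hjt⟩ := exists_toList ht
        rw [(hcard q (hGD hq)).1] at hj
        rcases hBd j (Finset.mem_range.2 hj) with ⟨w, hw⟩ | _
        · have h1 : p.a.toList[j]? = some t :=
            (hw p (hDB (hGD hp))).trans ((hw q (hDB (hGD hq))).symm.trans hjt)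
          exact ⟨t, toList_some h1, hut⟩
        · exact absurd ⟨i, hi, j, hj, hv, c, t, hic, hjt, hct⟩ hR
  have claim : ∀ p ∈ G, ∀ q ∈ G, p ≠ q → R p q ∨ R q p := by
    intro p hp q hq hne
    by_contra hcon
    push Not at hcon
    apply hA p (hDA (hGD hp)) q (hDA (hGD hq)) hne
    refine ⟨⟨p.a ∪ q.a, p.d ∪ q.d⟩, ?_, ?_⟩
    · rw [Cnd.le_def]
      refine ⟨Finset.subset_union_left, Finset.subset_union_left, ?_⟩
      intro c hc t ht u hu hut
      rcases Finset.mem_union.1 ht with ht | ht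
      · exact ⟨t, ht, hut⟩
      · exact half p hp q hq hcon.1 c hc t ht u hu hut
    · rw [Cnd.le_def]
      refine ⟨Finset.subset_union_right, Finset.subset_union_right, ?_⟩
      intro c hc t ht u hu hut
      rcases Finset.mem_union.1 ht with ht | ht
      · exact half q hq p hp hcon.2 c hc t ht u hu hut
      · exact ⟨t, ht, hut⟩
  -- for fixed p only countably many q have R q p
  have hcount : ∀ p : Cnd W, {q | q ∈ G ∧ R q p}.Countable := by
    intro p
    have : {q | q ∈ G ∧ R q p} ⊆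
        ⋃ i ∈ {i : ℕ | ∀ v, {x | x ∈ D ∧ x.d.toList[i]? = v}.Countable},
          ⋃ t ∈ (p.a : Set W), ⋃ c ∈ Set.Iic t, {x | x ∈ D ∧ x.d.toList[i]? = some (some c)} := by
      rintro q ⟨hq, i, _, j, _, hv, c, t, hc, ht, hct⟩
      refine Set.mem_biUnion (show i ∈ {i : ℕ | ∀ v, {x | x ∈ D ∧ x.d.toList[i]? = v}.Countable}
        from hv) ?_
      refine Set.mem_biUnion (show t ∈ (p.a : Set W) from toList_some ht) ?_
      exact Set.mem_biUnion (show c ∈ Set.Iic t from hct.le) ⟨hGD hq, hc⟩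
    refine Set.Countable.mono this ?_
    refine Set.Countable.biUnion (Set.to_countable _) ?_
    intro i hi
    refine Set.Countable.biUnion p.a.countable_toSet ?_
    intro t _
    refine Set.Countable.biUnion (hW.iic t) ?_
    intro c _
    exact hi _
  -- an ultrafilter containing the co-countable subsets of G
  have hne : (Filter.cocountable ⊓ Filter.principal G : Filter (Cnd W)).NeBot := by
    rw [Filter.inf_principal_neBot_iff]
    intro V hV
    rw [Filter.mem_cocountable] at hV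
    obtain ⟨x, hx, hxV⟩ := exists_diff hGu hV
    exact ⟨x, not_not.1 hxV, hx⟩
  let F : Ultrafilter (Cnd W) := Ultrafilter.of (Filter.cocountable ⊓ Filter.principal G)
  have hF : ∀ V : Set (Cnd W), (G \ V).Countable → V ∈ F := by
    intro V hV
    have h1 : V ∈ (Filter.cocountable ⊓ Filter.principal G : Filter (Cnd W)) := by
      rw [Filter.mem_inf_principal, Filter.mem_cocountable]
      refine hV.mono ?_
      intro x hx
      have hx' : ¬ (x ∈ G → x ∈ V) := hx
      push Not at hx'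
      exact hx'
    exact Ultrafilter.of_le _ h1
  have hRF : ∀ p ∈ G, {q | R p q} ∈ F := by
    intro p hp
    apply hF
    refine ((hcount p).union (Set.countable_singleton p)).mono ?_
    rintro q ⟨hq, hR⟩
    by_cases hqp : q = p
    · exact Or.inr hqp
    · refine Or.inl ⟨hq, ?_⟩
      rcases claim q hq p hp hqp with h | h
      · exact h
      · exact absurd h hR
  have hij : ∀ p : Cnd W, ∃ ij : ℕ × ℕ, p ∈ G → {q | R' ij.1 ij.2 p q} ∈ F := by
    intro p
    by_cases hp : p ∈ G
    · have h1 := hRF p hp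
      have h2 : {q | R p q} = ⋃ ij ∈ ({ij : ℕ × ℕ | ij.1 < k ∧ ij.2 < m}),
          {q | R' ij.1 ij.2 p q} := by
        ext q
        simp only [Set.mem_iUnion]
        constructor
        · rintro ⟨i, hi, j, hj, h⟩
          exact ⟨(i, j), ⟨hi, hj⟩, h⟩
        · rintro ⟨⟨i, j⟩, ⟨hi, hj⟩, h⟩
          exact ⟨i, hi, j, hj, h⟩
      have h3 : ({ij : ℕ × ℕ | ij.1 < k ∧ ij.2 < m}).Finite :=
        ((Set.finite_Iio k).prod (Set.finite_Iio m)).subset (fun x hx => hx)
      rw [h2, Ultrafilter.finite_biUnion_mem_iff h3] at h1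
      obtain ⟨ij, _, h⟩ := h1
      exact ⟨ij, fun _ => h⟩
    · exact ⟨(0, 0), fun h => absurd h hp⟩
  choose ij hij using hij
  obtain ⟨⟨i, j⟩, hH⟩ := pig hGu ij
  -- the chain
  set C : Set W := {c | ∃ p, p ∈ G ∧ ij p = (i, j) ∧ p.d.toList[i]? = some (some c)} with hC
  have hR' : ∀ p ∈ G, ij p = (i, j) → {q | R' i j p q} ∈ F := by
    intro p hp h
    have := hij p hp
    rw [h] at this
    exact this
  have hchain : IsChain (· ≤ ·) C := by
    rintro c ⟨p, hp, hpij, hc⟩ c' ⟨p', hp', hpij', hc'⟩ _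
    have h1 := Filter.inter_mem (hR' p hp hpij) (hR' p' hp' hpij')
    obtain ⟨q, hq, hq'⟩ := F.nonempty_of_mem h1
    obtain ⟨_, c1, t, hc1, ht, hct⟩ := hq
    obtain ⟨_, c2, t', hc2, ht', hct'⟩ := hq'
    have e1 : c = c1 := by
      have := hc.symm.trans hc1
      simpa using this
    have e2 : c' = c2 := by
      have := hc'.symm.trans hc2
      simpa using this
    have e3 : t = t' := by
      have := ht.symm.trans ht'
      simpa using this
    subst e1 e2 e3
    exact hW.tree.comp _ _ _ hct.le hct'.le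
  have hCc := hW.chain C hchain
  apply hH
  have hfib : ∀ v, {x | x ∈ D ∧ x.d.toList[i]? = v}.Countable := by
    have hne2 : {c | c ∈ G ∧ ij c = (i, j)}.Nonempty := by
      rw [Set.nonempty_iff_ne_empty]
      intro h0
      rw [h0] at hH
      exact hH Set.countable_empty
    obtain ⟨p, hp, hpij⟩ := hne2
    obtain ⟨q, hq⟩ := F.nonempty_of_mem (hR' p hp hpij)
    exact hq.1
  have hsub : {c | c ∈ G ∧ ij c = (i, j)} ⊆
      ⋃ c ∈ C, {x | x ∈ D ∧ x.d.toList[i]? = some (some c)} := by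
    rintro p ⟨hp, hpij⟩
    obtain ⟨q, hq⟩ := F.nonempty_of_mem (hR' p hp hpij)
    obtain ⟨_, c, t, hc, _, _⟩ := hq
    exact Set.mem_biUnion (show c ∈ C from ⟨p, hp, hpij, hc⟩) ⟨hGD hp, hc⟩
  exact (hCc.biUnion (fun c _ => hfib _)).mono hsub

end Pool.Agent.H64.AK
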