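import Pool.Agent.H64.AK.Om

set_option autoImplicit false

open Topology Cardinal Set

namespace Pool.Agent.H64.AK

open Pool.Agent.H60.CP Pool.Agent.H20.SL

theorem bat (hTGT : T_TGT) (hCLL : T_CLL) : T_BAT := by
  classical
  intro X _ _ hC
  rw [← isLindelof_univ_iff]
  by_contra hL
  have hcov : ¬ ∀ (ι : Type) (U : ι → Set (Cp X)), (∀ i, IsOpen (U i)) →
      (Set.univ : Set (Cp X)) ⊆ ⋃ i, U i → ∃ t : Set ι, t.Countable ∧
        (Set.univ : Set (Cp X)) ⊆ ⋃ i ∈ t, U i := by
    intro h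
    exact hL (isLindelof_of_countable_subcover (fun {ι} U hU hs => h ι U hU hs))
  push Not at hcov
  obtain ⟨ι, U, hUo, hUc, hU⟩ := hcov
  have ht : ∀ D : Set (Cp X), ∃ t : Set ι, t.Countable ∧ (D.Countable →
      closure D ⊆ ⋃ i ∈ t, U i) := by
    intro D
    by_cases hD : D.Countable
    · obtain ⟨t, ht1, ht2⟩ := (hCLL X D hD).elim_countable_subcover U hUo
        ((Set.subset_univ _).trans hUc)
      exact ⟨t, ht1, fun _ => ht2⟩
    · exact ⟨∅, Set.countable_empty, fun h => absurd h hD⟩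
  choose t ht1 ht2 using ht
  have hne : Nonempty (Cp X) := ⟨⟨fun _ => 0, continuous_const⟩⟩
  obtain ⟨f, hf⟩ := wfrec (W := Om) (Y := Cp X)
    (fun w g y => ∀ u, u ≤ w → ∀ i ∈ t (g '' Set.Iio u), y ∉ U i)
    (by
      intro w g g' y hgg h u hu i hi
      have he : g '' Set.Iio u = g' '' Set.Iio u := by
        apply Set.image_congr
        intro v hv
        exact hgg v (lt_of_lt_of_le hv hu)
      rw [← he] at hi
      exact h u hu i hi)
    (by
      intro w g
      have hc : (⋃ u ∈ Set.Iic w, t (g '' Set.Iio u)).Countable :=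
        (cIic w).biUnion fun u _ => ht1 _
      have h2 := hU _ hc
      rw [Set.not_subset] at h2
      obtain ⟨y, -, hy⟩ := h2
      refine ⟨y, ?_⟩
      intro u hu i hi hyi
      apply hy
      simp only [Set.mem_iUnion]
      exact ⟨i, ⟨u, hu, hi⟩, hyi⟩)
  have hunc : ¬ Countable Om := by
    intro h
    exact OmegaOne.unc (W := Om) Set.countable_univ
  obtain ⟨g, hg⟩ := hC Om f hunc
  have hgcl : g ∈ closure (Set.range f) := by
    rw [mem_closure_iff]
    intro V hV hgV
    by_contra hemp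
    apply hg V hV hgV
    have : {i | f i ∈ V} = ∅ := by
      ext i
      simp only [Set.mem_setOf_eq, Set.mem_empty_iff_false, iff_false]
      intro hi
      exact hemp ⟨f i, hi, ⟨i, rfl⟩⟩
    rw [this]
    exact Set.countable_empty
  obtain ⟨B, hB, hBc, hgB⟩ := hTGT X (Set.range f) g hgcl
  have hpre : ∀ b : B, ∃ w : Om, f w = b.1 := fun b => hB b.2
  choose s hs using hpre
  have hBct : Countable B := hBc.to_subtype
  obtain ⟨u, hu⟩ := bdd (W := Om) (Set.countable_range s)
  have hsub : B ⊆ f '' Set.Iio u := by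
    intro b hb
    exact ⟨s ⟨b, hb⟩, hu _ ⟨⟨b, hb⟩, rfl⟩, hs ⟨b, hb⟩⟩
  have hg2 : g ∈ closure (f '' Set.Iio u) := closure_mono hsub hgB
  have hg3 := ht2 (f '' Set.Iio u) ((OmegaOne.cIio u).image f) hg2
  simp only [Set.mem_iUnion] at hg3
  obtain ⟨i, hi, hgi⟩ := hg3
  apply hg (U i) (hUo i) hgi
  refine (OmegaOne.cIio u).mono ?_
  intro w hw
  by_contra hwu
  have hwu' : u ≤ w := not_lt.1 hwu
  exact hf w u hwu' i hi hw

end Pool.Agent.H64.AK
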