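import Pool.Agent.H64.AK.Defs

/-! # Trees with a node which has uncountably many predecessors -/

set_option autoImplicit false

open Topology

namespace Pool.Agent.H64.AK

open Pool.Agent.H20.SL

variable {T : Type} [PartialOrder T]

/-- continuity at a node -/
theorem cont_node {f : XT T → ℝ} (hf : Continuous f) (t : T) {ε : ℝ} (hε : 0 < ε) :
    ∃ F : Finset T, (∀ s ∈ F, s < t) ∧ ∀ x : T, x ≤ t → (∀ s ∈ F, ¬ x ≤ s) →
      |f (inc x) - f (inc t)| < ε := by
  have h1 : Continuous fun x : TT T => f (OnePoint.some x) := hf.comp OnePoint.continuous_coe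
  have h2 : IsOpen {x : TT T | |f (OnePoint.some x) - f (inc t)| < ε} :=
    isOpen_lt ((h1.sub continuous_const).abs) continuous_const
  have h3 := tt_isOpen_iff.1 h2 t (by
    show |f (inc t) - f (inc t)| < ε
    simpa using hε)
  obtain ⟨F, hF, hF'⟩ := h3
  exact ⟨F, hF, fun x hx hxs => hF' x hx hxs⟩

theorem iic_of_inCp (h : IsTree T) (hin : InCpLindelof (XT T)) (t : T) :
    (Set.Iic t).Countable := by
  classical
  by_contra hunc
  obtain ⟨t, ht, htmin⟩ := h.wf.has_min {t : T | ¬ (Set.Iic t).Countable} ⟨t, hunc⟩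
  have ht : ¬ (Set.Iic t).Countable := ht
  have hlt : ∀ s, s < t → (Set.Iic s).Countable := by
    intro s hs
    by_contra hcon
    exact htmin s hcon hs
  -- countable sets of predecessors are bounded
  have hbdd : ∀ C : Set T, C.Countable → (∀ c ∈ C, c < t) → ∃ x, x < t ∧ ∀ c ∈ C, c < x := by
    intro C hC hCt
    by_contra hcon
    push Not at hcon
    apply ht
    have h1 : Set.Iic t ⊆ {t} ∪ ⋃ c ∈ C, Set.Iic c := by
      intro x hx
      rcases (show x ≤ t from hx).eq_or_lt with hE | hxt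
      · exact Or.inl hE
      · obtain ⟨c, hc, hcx⟩ := hcon x hxt
        refine Or.inr (Set.mem_biUnion hc ?_)
        rcases h.comp x c t hxt.le (hCt c hc).le with h2 | h2
        · exact h2
        · exact (eq_of_le_of_not_lt h2 hcx).ge
    exact ((Set.countable_singleton t).union (hC.biUnion fun c hc => hlt c (hCt c hc))).mono h1
  obtain ⟨L, hL, hLc, hLs⟩ := exists_family hin
  -- one step
  have step : ∀ (k : ℕ) (s : {s : T // s < t}), ∃ (A : Set T) (u : {s : T // s < t}), s.1 < u.1 ∧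
      (∀ a ∈ A, s.1 < a ∧ a < u.1) ∧
      ∀ f ∈ L, ∃ a ∈ A, |f (inc a) - f (inc t)| < 1 / ((k : ℝ) + 1) := by
    intro k s
    set ε : ℝ := 1 / ((k : ℝ) + 1) with hε
    have hε0 : 0 < ε := by positivity
    have h1 : ∀ g : XT T → ℝ, ∃ x : T, s.1 < x ∧ x < t ∧
        (g ∈ L → |g (inc x) - g (inc t)| < ε / 3) := by
      intro g
      by_cases hg : g ∈ L
      · obtain ⟨F, hF, hF'⟩ := cont_node (hLc g hg) t (show 0 < ε / 3 by positivity)
        obtain ⟨x, hxt, hx⟩ := hbdd (insert s.1 (F : Set T))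
          (F.countable_toSet.insert _) (by
            intro c hc
            rcases hc with hc | hc
            · exact hc ▸ s.2
            · exact hF c hc)
        refine ⟨x, hx s.1 (Or.inl rfl), hxt, fun _ => hF' x hxt.le ?_⟩
        intro c hc hxc
        exact absurd (hx c (Or.inr hc)) (not_lt_of_ge hxc)
      · obtain ⟨x, hxt, hx⟩ := hbdd {s.1} (Set.countable_singleton _) (by
          intro c hc
          exact (show c = s.1 from hc) ▸ s.2)
        exact ⟨x, hx s.1 rfl, hxt, fun h' => absurd h' hg⟩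
    choose x hsx hxt hx using h1
    obtain ⟨N, hN, hNL, hcov⟩ := hL.elim_nhds_subcover
      (fun g => {f | |f (inc (x g)) - g (inc (x g))| < ε / 3 ∧
        |f (inc t) - g (inc t)| < ε / 3}) (by
        intro g _
        refine IsOpen.mem_nhds ?_ ?_
        · refine IsOpen.inter ?_ ?_
          · exact isOpen_lt (((continuous_apply (inc (x g))).sub continuous_const).abs)
              continuous_const
          · exact isOpen_lt (((continuous_apply (inc t)).sub continuous_const).abs)
              continuous_const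
        · constructor <;> simpa using hε0)
    obtain ⟨u, hut, hu⟩ := hbdd (insert s.1 (x '' N)) ((hN.image x).insert _) (by
      rintro c (hc | ⟨g, -, rfl⟩)
      · exact hc ▸ s.2
      · exact hxt g)
    refine ⟨x '' N, ⟨u, hut⟩, hu s.1 (Or.inl rfl), ?_, ?_⟩
    · rintro _ ⟨g, hg, rfl⟩
      exact ⟨hsx g, hu (x g) (Or.inr ⟨g, hg, rfl⟩)⟩
    · intro f hf
      have h2 := hcov hf
      simp only [Set.mem_iUnion] at h2
      obtain ⟨g, hg, hfg⟩ := h2
      obtain ⟨h3, h4⟩ := hfg
      refine ⟨x g, ⟨g, hg, rfl⟩, ?_⟩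
      have h5 := hx g (hNL g hg)
      rw [abs_lt] at h3 h4 h5 ⊢
      constructor <;> linarith [h3.1, h3.2, h4.1, h4.2, h5.1, h5.2]
  choose A u hsu hA hAf using step
  obtain ⟨s0, hs0t, -⟩ := hbdd ∅ Set.countable_empty (by simp)
  let b : ℕ → {s : T // s < t} := fun n => Nat.rec ⟨s0, hs0t⟩ (fun n s => u (Nat.unpair n).1 s) n
  have hb : ∀ n, b (n + 1) = u (Nat.unpair n).1 (b n) := fun n => rfl
  have hblt : ∀ n, (b n).1 < (b (n + 1)).1 := by
    intro n
    rw [hb]
    exact hsu _ _
  have hbmono : StrictMono fun n => (b n).1 := strictMono_nat_of_lt_succ hblt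
  obtain ⟨x, hxt, hx⟩ := hbdd (Set.range fun n => (b n).1) (Set.countable_range _) (by
    rintro _ ⟨n, rfl⟩
    exact (b n).2)
  obtain ⟨α, ⟨hαt, hα⟩, hαmin⟩ := h.wf.has_min {y : T | y ≤ t ∧ ∀ n, (b n).1 < y}
    ⟨x, hxt.le, fun n => hx _ ⟨n, rfl⟩⟩
  have hαt' : α < t := by
    refine lt_of_le_of_ne hαt ?_
    rintro rfl
    exact hαmin x ⟨hxt.le, fun n => hx _ ⟨n, rfl⟩⟩ hxt
  have hαs : ∀ s, s < α → ∃ n, s ≤ (b n).1 := by
    intro s hs
    by_contra hcon
    push Not at hcon
    refine hαmin s ⟨hs.le.trans hαt, fun n => ?_⟩ hs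
    rcases h.comp s (b n).1 t (hs.le.trans hαt) (b n).2.le with h2 | h2
    · exact absurd h2 (hcon n)
    · exact lt_of_le_of_ne h2 fun hE => hcon n hE.ge
  obtain ⟨f, hf, hfne⟩ := hLs (inc α) (inc t) fun hE => hαt'.ne (inc_injective hE)
  set η : ℝ := |f (inc α) - f (inc t)| with hη
  have hη0 : 0 < η := abs_pos.2 (sub_ne_zero.2 hfne)
  obtain ⟨k, hk⟩ := exists_nat_one_div_lt (show 0 < η / 2 by positivity)
  obtain ⟨F, hF, hF'⟩ := cont_node (hLc f hf) α (show 0 < η / 2 by positivity)
  have hFm : ∃ m, ∀ s ∈ F, s ≤ (b m).1 := by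
    have h1 : ∀ s : T, ∃ n, s ∈ F → s ≤ (b n).1 := by
      intro s
      by_cases hs : s ∈ F
      · obtain ⟨n, hn⟩ := hαs s (hF s hs)
        exact ⟨n, fun _ => hn⟩
      · exact ⟨0, fun h' => absurd h' hs⟩
    choose N hN using h1
    refine ⟨F.sup N, fun s hs => (hN s hs).trans ?_⟩
    exact hbmono.monotone (Finset.le_sup hs)
  obtain ⟨m, hm⟩ := hFm
  set n : ℕ := Nat.pair k m with hn
  have hmn : m ≤ n := Nat.right_le_pair k m
  have hkn : (Nat.unpair n).1 = k := by simp [hn]
  obtain ⟨a, ha, haf⟩ := hAf (Nat.unpair n).1 (b n) f hf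
  obtain ⟨ha1, ha2⟩ := hA (Nat.unpair n).1 (b n) a ha
  rw [hkn] at haf
  have haα : a < α := by
    refine ha2.trans ?_
    rw [← hb]
    exact hα (n + 1)
  have h6 := hF' a haα.le (by
    intro s hs hsa
    have h7 : s ≤ (b n).1 := (hm s hs).trans (hbmono.monotone hmn)
    exact absurd (h7.trans_lt ha1) (not_lt_of_ge hsa))
  have h8 : |f (inc a) - f (inc t)| < η / 2 := haf.trans hk
  have h9 : η < η := by
    calc η = |(f (inc a) - f (inc t)) - (f (inc a) - f (inc α))| := by
          rw [hη]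
          congr 1
          ring
      _ ≤ |f (inc a) - f (inc t)| + |f (inc a) - f (inc α)| := abs_sub _ _
      _ < η / 2 + η / 2 := add_lt_add h8 h6
      _ = η := by ring
  exact lt_irrefl _ h9

end Pool.Agent.H64.AK
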