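import Pool.Agent.H20.SL.Char2
import Pool.Agent.H60.CP.Basic

/-!
# Function spaces with co-countably convergent subfamilies, and Martin's axiom for trees
(MP_bff2e5_gt): definitions
-/

set_option autoImplicit false

open Topology Cardinal

namespace Pool.Agent.H64.AK

open Pool.Agent.H20.SL

/-- the continuous real functions on `X` with the topology of pointwise convergence -/
abbrev Cp (X : Type) [TopologicalSpace X] : Type := {f : X → ℝ // Continuous f}

/-- Martin's axiom for `ℵ₁` dense sets -/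
def MA1 : Prop := ∀ (P : Type) [PartialOrder P] [Nonempty P],
  (∀ A : Set P, (∀ a ∈ A, ∀ b ∈ A, a ≠ b → ¬ ∃ c : P, c ≤ a ∧ c ≤ b) → A.Countable) →
  ∀ (ι : Type) (D : ι → Set P), #ι ≤ ℵ₁ → (∀ i, ∀ p : P, ∃ q ∈ D i, q ≤ p) →
    ∃ G : Set P, G.Nonempty ∧ (∀ a ∈ G, ∀ b : P, a ≤ b → b ∈ G) ∧
      (∀ a ∈ G, ∀ b ∈ G, ∃ c ∈ G, c ≤ a ∧ c ≤ b) ∧ ∀ i, (D i ∩ G).Nonempty

/-- every uncountable family of members of `E` has an uncountable subfamily which converges to a
member of `E` in the sense that at every point all but countably many functions of the subfamily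
take the same value as the limit -/
def CoConv {X : Type} (E : Set (X → ℝ)) : Prop :=
  ∀ (I : Type) (e : I → X → ℝ), (∀ i, e i ∈ E) → ¬ Countable I →
    ∃ (J : Set I) (c : X → ℝ), c ∈ E ∧ ¬ J.Countable ∧ ∀ x, {i | i ∈ J ∧ e i x ≠ c x}.Countable

/-- `E` is a set of continuous functions which separates the points of `X` -/
def Sep {X : Type} [TopologicalSpace X] (E : Set (X → ℝ)) : Prop :=
  (∀ f ∈ E, Continuous f) ∧ ∀ x y, x ≠ y → ∃ f ∈ E, f x ≠ f y

/-- every uncountable family of continuous functions has a condensation point -/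
def CondPt (X : Type) [TopologicalSpace X] : Prop :=
  ∀ (I : Type) (f : I → Cp X), ¬ Countable I →
    ∃ g : Cp X, ∀ U : Set (Cp X), IsOpen U → g ∈ U → ¬ {i | f i ∈ U}.Countable

/-- the immediate successors of `c`; those of `none` are the minimal elements -/
def Suc {W : Type} [PartialOrder W] : Option W → W → Prop
  | none, u => IsMin u
  | some c, u => c ⋖ u

/-- every uncountable set `Y` of nodes has a node (or the root `none`) which has uncountably many
immediate successors below elements of `Y` -/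
def Wide (T : Type) [PartialOrder T] : Prop := ∀ Y : Set T, ¬ Y.Countable →
  ∃ c : Option T, ¬ {u | Suc c u ∧ ∃ y ∈ Y, u ≤ y}.Countable

/-- conditions: a finite set of nodes and a finite set of frozen nodes -/
structure Cnd (W : Type) where
  a : Finset W
  d : Finset (Option W)

/-- `q` extends `p`: frozen nodes of `p` get no new immediate successors below nodes of `q` -/
instance (W : Type) [PartialOrder W] : PartialOrder (Cnd W) where
  le q p := p.a ⊆ q.a ∧ p.d ⊆ q.d ∧
    ∀ c ∈ p.d, ∀ t ∈ q.a, ∀ u, Suc c u → u ≤ t → ∃ t' ∈ p.a, u ≤ t'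
  le_refl p := ⟨Finset.Subset.refl _, Finset.Subset.refl _, fun c _ t ht u _ hut => ⟨t, ht, hut⟩⟩
  le_trans r q p hrq hqp := ⟨hqp.1.trans hrq.1, hqp.2.1.trans hrq.2.1, fun c hc t ht u hu hut => by
    obtain ⟨t', ht', hut'⟩ := hrq.2.2 c (hqp.2.1 hc) t ht u hu hut
    exact hqp.2.2 c hc t' ht' u hu hut'⟩
  le_antisymm p q h1 h2 := by
    cases p
    cases q
    simp only [Cnd.mk.injEq]
    exact ⟨Finset.Subset.antisymm h2.1 h1.1, Finset.Subset.antisymm h2.2.1 h1.2.1⟩

theorem Cnd.le_def {W : Type} [PartialOrder W] (q p : Cnd W) : q ≤ p ↔ p.a ⊆ q.a ∧ p.d ⊆ q.d ∧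
    ∀ c ∈ p.d, ∀ t ∈ q.a, ∀ u, Suc c u → u ≤ t → ∃ t' ∈ p.a, u ≤ t' := Iff.rfl

/-- small countably branching trees without uncountable chains -/
structure Small (W : Type) [PartialOrder W] : Prop where
  tree : IsTree W
  card : #W ≤ ℵ₁
  unc : ¬ Countable W
  iic : ∀ t : W, (Set.Iic t).Countable
  suc : ∀ c : Option W, {u | Suc c u}.Countable
  chain : ∀ C : Set W, IsChain (· ≤ ·) C → C.Countable

/-! ## Targets -/

/-- SW: approximation by rational polynomials in members of `E` -/
def T_SW : Prop := ∀ (X : Type) [TopologicalSpace X] [CompactSpace X] (E : Set (X → ℝ)),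
  E.Nonempty → Sep E → ∀ (f : Cp X) (ε : ℝ), 0 < ε →
    ∃ (e : ℕ → X → ℝ) (p : MvPolynomial ℕ ℚ), (∀ j, e j ∈ E) ∧
      ∀ x, |f.1 x - MvPolynomial.aeval (fun j => e j x) p| < ε

/-- TGT: function spaces of compact spaces have countable tightness -/
def T_TGT : Prop := ∀ (X : Type) [TopologicalSpace X] [CompactSpace X] (A : Set (Cp X)) (f : Cp X),
  f ∈ closure A → ∃ B ⊆ A, B.Countable ∧ f ∈ closure B

/-- CLL: closures of countable sets of functions are Lindelof -/
def T_CLL : Prop := ∀ (X : Type) [TopologicalSpace X] [CompactSpace X] (D : Set (Cp X)),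
  D.Countable → IsLindelof (closure D)

/-- BAT: condensation points imply the Lindelof property (Baturov) -/
def T_BAT : Prop := ∀ (X : Type) [TopologicalSpace X] [CompactSpace X],
  CondPt X → LindelofSpace (Cp X)

/-- STP: the refinement step -/
def T_STP : Prop := ∀ (X : Type) (E : Set (X → ℝ)), CoConv E → ∀ (I : Type)
  (e : I → ℕ → ℕ → X → ℝ) (p : I → ℕ → MvPolynomial ℕ ℚ), (∀ i n j, e i n j ∈ E) →
  ¬ Countable I →
  ∃ (J : ℕ → Set I) (q : ℕ → MvPolynomial ℕ ℚ) (c : ℕ → ℕ → X → ℝ),
    Antitone J ∧ (∀ m, ¬ (J m).Countable) ∧ (∀ n j, c n j ∈ E) ∧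
    ∀ n j m, Nat.pair n j < m → (∀ i ∈ J m, p i n = q n) ∧
      ∀ x, {i | i ∈ J m ∧ e i n j x ≠ c n j x}.Countable

/-- CND: co-countable convergence gives condensation points -/
def T_CND : Prop := ∀ (X : Type) [TopologicalSpace X] [CompactSpace X] (E : Set (X → ℝ)),
  E.Nonempty → Sep E → CoConv E → CondPt X

/-- IMG: images of compact spaces with Lindelof function spaces -/
def T_IMG : Prop := ∀ (X X₁ : Type) [TopologicalSpace X] [TopologicalSpace X₁] [CompactSpace X]
  [T2Space X₁] (g : X → X₁), Continuous g → Function.Surjective g → LindelofSpace (Cp X) →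
    LindelofSpace (Cp X₁) ∧ InCpTychonoffLindelof X₁

/-- TRE: the characteristic functions of the paths of a wide tree -/
def T_TRE : Prop := ∀ (T : Type) [PartialOrder T], IsTree T → Haus T →
  (∀ t : T, (Set.Iic t).Countable) → Wide T →
    CoConv (insert (0 : XT T → ℝ) (Set.range fun t : T => (chi t : XT T → ℝ)))

/-- CCC: the conditions of a small tree satisfy the countable chain condition -/
def T_CCC : Prop := ∀ (W : Type) [PartialOrder W], Small W → ∀ A : Set (Cnd W),
  (∀ a ∈ A, ∀ b ∈ A, a ≠ b → ¬ ∃ c : Cnd W, c ≤ a ∧ c ≤ b) → A.Countable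

/-- DNS: a condition below which nodes outside every countable set can be added -/
def T_DNS : Prop := ∀ (W : Type) [PartialOrder W], Small W → ∃ p₀ : Cnd W, ∀ q ≤ p₀,
  ∀ S : Set W, S.Countable → ∃ r ≤ q, ∃ w ∈ r.a, w ∉ S

/-- FIL: Martin's axiom gives an uncountable finitely branching subset -/
def T_FIL : Prop := MA1 → ∀ (W : Type) [PartialOrder W], Small W →
  ∃ V : Set W, ¬ V.Countable ∧ (∀ a ∈ V, ∀ b, b ≤ a → b ∈ V) ∧
    ∀ c : Option W, {u | Suc c u ∧ u ∈ V}.Finite

/-- WID: Martin's axiom and the finite branching condition imply wideness -/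
def T_WID : Prop := MA1 → ∀ (T : Type) [PartialOrder T], IsTree T →
  (∀ t : T, (Set.Iic t).Countable) → FB T → Wide T

end Pool.Agent.H64.AK
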