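import Pool.Agent.H64.AK.Defs

/-! # The type of countable ordinals -/

set_option autoImplicit false

open Cardinal

namespace Pool.Agent.H64.AK

open Pool.Agent.H60.CP

/-- The type of countable ordinals. -/
abbrev Om : Type := (Cardinal.aleph 1).ord.ToType

theorem mk_Om : #Om = ℵ₁ := by simp

instance : OmegaOne Om where
  wf := inferInstance
  cIio w := by
    have h : #(Set.Iio w) < #Om := Cardinal.mk_Iio_lt w (by simp)
    rw [mk_Om] at h
    rw [← Cardinal.le_aleph0_iff_set_countable]
    have h2 : ℵ₁ = Order.succ ℵ₀ := Cardinal.succ_aleph0.symm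
    exact Order.lt_succ_iff.1 (h.trans_eq h2)
  unc := by
    intro h
    have h1 : #(Set.univ : Set Om) ≤ ℵ₀ := (Cardinal.le_aleph0_iff_set_countable).2 h
    rw [Cardinal.mk_univ, mk_Om] at h1
    exact absurd h1 (not_le.2 Cardinal.aleph0_lt_aleph_one)

end Pool.Agent.H64.AK
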